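import Pool.Agent.Y269.EL.Stm2

/-!
# Project EL, job INIT: the initial stage
-/

set_option autoImplicit false

namespace Pool.Agent.Y929.EL

open Filter Topology Set
open scoped InnerProductSpace
open Pool.Agent.Y269.EL

noncomputable section

variable {H : Type} [NormedAddCommGroup H] [InnerProductSpace ℂ H] [CompleteSpace H]

/-- the geometric data of the initial stage -/
def G0 (S1 S2 : H →L[ℂ] H) : Geo H where
  d := fun _ => 4
  cap := fun _ => 2
  dep := fun _ => 0
  an := fun k => {k}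
  S1 := S1
  S2 := S2

/-- the row -/
def rr (A : Amb H) (e : H) (u : Pt) : H := Ub A 4 (u 0) e

/-- the rank one operator -/
def cc (A : Amb H) (e : H) (u : Pt) : H →L[ℂ] H :=
  InnerProductSpace.rankOne ℂ (rr A e u) (rr A e u)

/-- the function -/
def FF (A : Amb H) (S1 S2 : H →L[ℂ] H) (e : H) (t : ℝ) (u v : Pt) (g : H →L[ℂ] H) : H →L[ℂ] H :=
  ((1 - t : ℝ) : ℂ) • cc A e u +
    ((t : ℝ) : ℂ) • (S1 * cc A e u * star S1 + S2 * g * cc A e v * star g * star S2)

lemma cc_apply (A : Amb H) (e : H) (u : Pt) (ξ : H) :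
    cc A e u ξ = ⟪rr A e u, ξ⟫_ℂ • rr A e u := by
  rw [cc, InnerProductSpace.rankOne_apply]

lemma rr_flp_zero (hI : IseStmt H) (A : Amb H) (e : H) {S1 S2 : H →L[ℂ] H} (u : Pt)
    (hu : u ∈ XX (G0 S1 S2).d) : rr A e (flp 0 u) = -rr A e u := by
  have h := (hI.ub A 4 (u 0) (hu 0)).2.2.2.2
  have h2 : (flp 0 u) 0 = -(u 0) := by rw [flp, Function.update_self]
  rw [rr, rr, h2, h]
  rfl

lemma rr_flp_ne (A : Amb H) (e : H) (u : Pt) {k : ℕ} (hk : k ≠ 0) :
    rr A e (flp k u) = rr A e u := by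
  have h2 : (flp k u) 0 = u 0 := by rw [flp, Function.update_of_ne hk.symm]
  rw [rr, rr, h2]

lemma rr_flp (hI : IseStmt H) (A : Amb H) (e : H) {S1 S2 : H →L[ℂ] H} (u : Pt)
    (hu : u ∈ XX (G0 S1 S2).d) (k : ℕ) : rr A e (flp k u) = sg {0} k • rr A e u := by
  by_cases hk : k = 0
  · subst hk
    rw [rr_flp_zero hI A e (S1 := S1) (S2 := S2) u hu]
    simp [sg]
  · rw [rr_flp_ne A e u hk]
    simp [sg, hk]

lemma cc_flp (hI : IseStmt H) (A : Amb H) (e : H) {S1 S2 : H →L[ℂ] H} (u : Pt)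
    (hu : u ∈ XX (G0 S1 S2).d) (k : ℕ) : cc A e (flp k u) = cc A e u := by
  by_cases hk : k = 0
  · subst hk
    ext ξ
    rw [cc_apply, cc_apply, rr_flp_zero hI A e (S1 := S1) (S2 := S2) u hu]
    simp
  · rw [cc, cc, rr_flp_ne A e u hk]

lemma rr_cont (hI : IseStmt H) (A : Amb H) (e : H) : Continuous (rr A e) := by
  have h1 : Continuous fun u : Pt => Ub A 4 (u 0) := (hI.ubc A 4).comp (continuous_apply 0)
  exact h1.clm_apply continuous_const

omit [CompleteSpace H] in
lemma mul_ap (x y : H →L[ℂ] H) (η : H) : (x * y) η = x (y η) := rfl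

lemma cc_eq (A : Amb H) (e : H) (u : Pt) : cc A e u =
    Ub A 4 (u 0) * InnerProductSpace.rankOne ℂ e e * star (Ub A 4 (u 0)) := by
  ext ξ
  rw [cc_apply, mul_ap, mul_ap, InnerProductSpace.rankOne_apply, map_smul,
    ContinuousLinearMap.star_eq_adjoint, ContinuousLinearMap.adjoint_inner_right]
  rfl

lemma cc_cont (hI : IseStmt H) (A : Amb H) (e : H) : Continuous (cc A e) := by
  have h1 : Continuous fun u : Pt => Ub A 4 (u 0) := (hI.ubc A 4).comp (continuous_apply 0)
  have h2 : cc A e = fun u => Ub A 4 (u 0) * InnerProductSpace.rankOne ℂ e e *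
      star (Ub A 4 (u 0)) := funext fun u => cc_eq A e u
  rw [h2]
  exact (h1.mul continuous_const).mul h1.star

lemma FF_cont (hI : IseStmt H) (A : Amb H) (S1 S2 : H →L[ℂ] H) (e : H) :
    Continuous fun z : ℝ × Pt × Pt × (H →L[ℂ] H) => FF A S1 S2 e z.1 z.2.1 z.2.2.1 z.2.2.2 := by
  unfold FF
  have hc := cc_cont hI A e
  have h1 : Continuous fun z : ℝ × Pt × Pt × (H →L[ℂ] H) => cc A e z.2.1 :=
    hc.comp (by fun_prop)
  have h2 : Continuous fun z : ℝ × Pt × Pt × (H →L[ℂ] H) => cc A e z.2.2.1 :=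
    hc.comp (by fun_prop)
  have h3 : Continuous fun z : ℝ × Pt × Pt × (H →L[ℂ] H) => z.2.2.2 := by fun_prop
  have h4 : Continuous fun z : ℝ × Pt × Pt × (H →L[ℂ] H) => star z.2.2.2 := h3.star
  have h5 : Continuous fun z : ℝ × Pt × Pt × (H →L[ℂ] H) => ((1 - z.1 : ℝ) : ℂ) :=
    Complex.continuous_ofReal.comp (continuous_const.sub continuous_fst)
  have h6 : Continuous fun z : ℝ × Pt × Pt × (H →L[ℂ] H) => ((z.1 : ℝ) : ℂ) :=
    Complex.continuous_ofReal.comp continuous_fst
  refine Continuous.add ?_ ?_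
  · exact h5.smul h1
  · refine h6.smul ?_
    exact ((continuous_const.mul h1).mul continuous_const).add
      ((((continuous_const.mul h3).mul h2).mul h4).mul continuous_const)

lemma norm_le_one {x : H →L[ℂ] H} (h : star x * x = 1) : ‖x‖ ≤ 1 := by
  have h1 : ‖x‖ * ‖x‖ ≤ 1 := by
    rw [← CStarRing.norm_star_mul_self, h]
    exact ContinuousLinearMap.norm_id_le
  nlinarith [norm_nonneg x]

lemma norm_cc_le (hI : IseStmt H) (A : Amb H) {e : H} (he : ‖e‖ = 1) {S1 S2 : H →L[ℂ] H} (u : Pt)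
    (hu : u ∈ XX (G0 S1 S2).d) : ‖cc A e u‖ ≤ 1 := by
  rw [cc, InnerProductSpace.norm_rankOne]
  have h1 : ‖Ub A 4 (u 0)‖ ≤ 1 := norm_le_one (hI.gm A _ (hI.ub A 4 (u 0) (hu 0)).1).1
  have h2 : ‖rr A e u‖ ≤ 1 := by
    rw [rr]
    calc ‖Ub A 4 (u 0) e‖ ≤ ‖Ub A 4 (u 0)‖ * ‖e‖ := ContinuousLinearMap.le_opNorm _ _
      _ ≤ 1 * 1 := by rw [he]; linarith
      _ = 1 := by norm_num
  nlinarith [norm_nonneg (rr A e u)]

lemma norm_rest (hI : IseStmt H) (A : Amb H) {e : H} (he : ‖e‖ = 1) {S1 S2 : H →L[ℂ] H}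
    (h1 : star S1 * S1 = 1) (h2 : star S2 * S2 = 1) (u v : Pt)
    (hu : u ∈ XX (G0 S1 S2).d) (hv : v ∈ XX (G0 S1 S2).d) (g : H →L[ℂ] H) (hg : g ∈ GM A) :
    ‖S1 * cc A e u * star S1 + S2 * g * cc A e v * star g * star S2‖ ≤ 2 := by
  have a1 := norm_le_one h1
  have a2 := norm_le_one h2
  have a3 := norm_le_one (hI.gm A g hg).1
  have a1' : ‖star S1‖ ≤ 1 := by rw [norm_star]; exact a1
  have a2' : ‖star S2‖ ≤ 1 := by rw [norm_star]; exact a2
  have a3' : ‖star g‖ ≤ 1 := by rw [norm_star]; exact a3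
  have c1 := norm_cc_le hI A he u hu
  have c2 := norm_cc_le hI A he v hv
  have m : ∀ x y : H →L[ℂ] H, ‖x‖ ≤ 1 → ‖y‖ ≤ 1 → ‖x * y‖ ≤ 1 := by
    intro x y hx hy
    calc ‖x * y‖ ≤ ‖x‖ * ‖y‖ := norm_mul_le _ _
      _ ≤ 1 * 1 := mul_le_mul hx hy (norm_nonneg _) zero_le_one
      _ = 1 := by norm_num
  have b1 := m _ _ (m _ _ a1 c1) a1'
  have b2 := m _ _ (m _ _ (m _ _ (m _ _ a2 a3) c2) a3') a2'
  calc _ ≤ _ := norm_add_le _ _
    _ ≤ 1 + 1 := add_le_add b1 b2
    _ = 2 := by norm_num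

lemma G0_ok {S1 S2 : H →L[ℂ] H} (h1 : star S1 * S1 = 1) (h2 : star S2 * S2 = 1)
    (h12 : star S1 * S2 = 0) (hs : S1 * star S1 + S2 * star S2 = 1) : (G0 S1 S2).OK where
  d_pos := fun _ => by simp [G0]
  cap_le := fun _ => by simp [G0]
  self_mem := fun k => by simp [G0]
  dep_lt := fun k j hj hjk => by
    simp only [G0, Finset.mem_singleton] at hj
    exact absurd hj hjk
  an_trans := fun k j hj => by
    simp only [G0, Finset.mem_singleton] at hj ⊢
    rw [hj]
  s11 := h1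
  s22 := h2
  s12 := h12
  sum_one := hs

lemma FF_isE (hI : IseStmt H) (A : Amb H) {S1 S2 : H →L[ℂ] H} {e : H} (he : ‖e‖ = 1)
    (h1 : star S1 * S1 = 1) (h2 : star S2 * S2 = 1) : IsE A (G0 S1 S2) (FF A S1 S2 e) where
  sc := by
    have hc := FF_cont hI A S1 S2 e
    refine ⟨⟨3, ?_⟩, fun ξ => ?_, fun ξ => ?_⟩
    · rintro ⟨t, u, v, g⟩ ⟨ht, hu, hv, hg⟩
      have b1 := norm_cc_le hI A he u hu
      have b2 := norm_rest hI A he h1 h2 u v hu hv g hg
      have ht0 : 0 ≤ t := ht.1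
      have ht1 : t ≤ 1 := ht.2
      show ‖FF A S1 S2 e t u v g‖ ≤ 3
      rw [FF]
      refine (norm_add_le _ _).trans ?_
      rw [norm_smul, norm_smul, Complex.norm_real, Complex.norm_real, Real.norm_eq_abs,
        Real.norm_eq_abs, abs_of_nonneg (by linarith : (0 : ℝ) ≤ 1 - t), abs_of_nonneg ht0]
      have c1 : (1 - t) * ‖cc A e u‖ ≤ 1 * 1 :=
        mul_le_mul (by linarith) b1 (norm_nonneg _) zero_le_one
      have c2 : t * ‖S1 * cc A e u * star S1 + S2 * g * cc A e v * star g * star S2‖ ≤ 1 * 2 :=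
        mul_le_mul ht1 b2 (norm_nonneg _) zero_le_one
      linarith
    · exact (hc.clm_apply continuous_const).continuousOn
    · exact (hc.star.clm_apply continuous_const).continuousOn
  eqc := by
    intro ε hε
    refine ⟨ε / 3, by positivity, ?_⟩
    intro t ht t' ht' htt u hu v hv g hg
    have b1 := norm_cc_le hI A he u hu
    have b2 := norm_rest hI A he h1 h2 u v hu hv g hg
    have e1 : FF A S1 S2 e t u v g - FF A S1 S2 e t' u v g = ((t - t' : ℝ) : ℂ) •
        ((S1 * cc A e u * star S1 + S2 * g * cc A e v * star g * star S2) - cc A e u) := by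
      rw [FF, FF]
      push_cast
      module
    rw [e1, norm_smul, Complex.norm_real, Real.norm_eq_abs]
    have b3 : ‖(S1 * cc A e u * star S1 + S2 * g * cc A e v * star g * star S2) - cc A e u‖ ≤ 3 := by
      refine (norm_sub_le _ _).trans ?_
      linarith
    calc |t - t'| * ‖(S1 * cc A e u * star S1 + S2 * g * cc A e v * star g * star S2) - cc A e u‖
        ≤ ε / 3 * 3 := mul_le_mul htt.le b3 (norm_nonneg _) (by positivity)
      _ = ε := by ring
  ev1 := by
    intro t _ u hu v _ g _ k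
    rw [FF, FF, cc_flp hI A e u hu]
  ev2 := by
    intro t _ u _ v hv g _ k
    rw [FF, FF, cc_flp hI A e v hv]
  ev3 := by
    intro t _ u _ v _ g _
    rw [FF, FF, star_neg]
    congr 2
    noncomm_ring
  bd0 := by
    intro u _ v _ g _
    simp [FF]
  bd1 := by
    intro u _ v _ g _
    simp [FF, G0]

lemma lead_unit (S1 S2 : H →L[ℂ] H) :
    Lead (G0 S1 S2) (fun _ : Unit => 0) (fun _ => {0}) where
  mem := fun _ => by simp
  sub := fun _ => by simp [G0]
  count := fun k => by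
    have h := Set.encard_le_encard (Set.subset_univ {r : Unit | 0 = k})
    refine h.trans ?_
    rw [Set.encard_univ]
    simp [G0]

lemma lead_bool (S1 S2 : H →L[ℂ] H) :
    Lead (G0 S1 S2) (fun _ : Bool => 0) (fun _ => {0}) where
  mem := fun _ => by simp
  sub := fun _ => by simp [G0]
  count := fun k => by
    have h := Set.encard_le_encard (Set.subset_univ {r : Bool | 0 = k})
    refine h.trans ?_
    rw [Set.encard_univ]
    simp [G0]

/-- the two rows of type 1 -/
def row1 (A : Amb H) (S1 : H →L[ℂ] H) (e : H) (r : Bool) (u _v : Pt) (_g : H →L[ℂ] H) : H :=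
  if r then S1 (rr A e u) else rr A e u

/-- the row of type 2 -/
def row2 (A : Amb H) (S2 : H →L[ℂ] H) (e : H) (_r : Unit) (_u v : Pt) (g : H →L[ℂ] H) : H :=
  S2 (g (rr A e v))

lemma FF_good (hI : IseStmt H) (A : Amb H) {S1 S2 : H →L[ℂ] H} (e : H) :
    Good A (G0 S1 S2) (FF A S1 S2 e) where
  zero := by
    refine ⟨Unit, fun _ => 0, fun _ => {0}, fun _ => rr A e, ⟨lead_unit S1 S2, fun _ =>
      (rr_cont hI A e).continuousOn, fun _ w hw k => rr_flp hI A e w hw k⟩, ?_⟩
    intro w _ ξ h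
    have h0 := h ()
    simp [FF, cc_apply, h0]
  all := by
    intro t _
    refine ⟨Bool, Unit, fun _ => 0, fun _ => {0}, row1 A S1 e, fun _ => 0, fun _ => {0},
      row2 A S2 e, ⟨lead_bool S1 S2, ?_, ?_, ?_, ?_⟩, ⟨lead_unit S1 S2, ?_, ?_, ?_, ?_⟩, ?_⟩
    · intro r
      have h := rr_cont hI A e
      have h1 : Continuous fun z : Pt × Pt × (H →L[ℂ] H) => rr A e z.1 := h.comp (by fun_prop)
      cases r
      · exact h1.continuousOn
      · exact (S1.continuous.comp h1).continuousOn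
    · intro r u hu v _ g _ k
      cases r
      · simp only [row1]
        simpa using rr_flp hI A e u hu k
      · simp only [row1, if_true]
        rw [rr_flp hI A e u hu k, map_smul]
    · intro r u _ v _ g _ k
      rfl
    · intro r u _ v _ g _
      rfl
    · intro r
      have h := rr_cont hI A e
      have h1 : Continuous fun z : Pt × Pt × (H →L[ℂ] H) => rr A e z.2.1 := h.comp (by fun_prop)
      have h2 : Continuous fun z : Pt × Pt × (H →L[ℂ] H) => z.2.2 := by fun_prop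
      exact (S2.continuous.comp (h2.clm_apply h1)).continuousOn
    · intro r u _ v _ g _ k
      rfl
    · intro r u _ v hv g _ k
      simp only [row2]
      rw [rr_flp hI A e v hv k, map_smul, map_smul]
    · intro r u _ v _ g _
      simp [row2]
    · intro u _ v _ g _ ξ h1 h2
      have a1 : ⟪rr A e u, ξ⟫_ℂ = 0 := by simpa [row1] using h1 false
      have a2 : ⟪rr A e u, (star S1) ξ⟫_ℂ = 0 := by
        have := h1 true
        simp only [row1, if_true] at this
        rw [ContinuousLinearMap.star_eq_adjoint, ContinuousLinearMap.adjoint_inner_right]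
        exact this
      have a3 : ⟪rr A e v, (star g) ((star S2) ξ)⟫_ℂ = 0 := by
        have := h2 ()
        simp only [row2] at this
        rw [ContinuousLinearMap.star_eq_adjoint, ContinuousLinearMap.star_eq_adjoint,
          ContinuousLinearMap.adjoint_inner_right, ContinuousLinearMap.adjoint_inner_right]
        exact this
      simp only [FF, add_apply, smul_apply, mul_ap, cc_apply, a1, a2, a3, zero_smul, map_zero,
        smul_zero, add_zero]

/-- **the initial stage** -/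
theorem init (H : Type) [NormedAddCommGroup H] [InnerProductSpace ℂ H] [CompleteSpace H]
    [Nontrivial H] (hI : IseStmt H) : InitStmt H := by
  intro A S1 S2 h1 h2 h12 hs
  obtain ⟨e, he⟩ : ∃ e : H, ‖e‖ = 1 := by
    obtain ⟨x, hx⟩ := exists_ne (0 : H)
    exact ⟨((‖x‖ : ℂ)⁻¹) • x, norm_smul_inv_norm hx⟩
  refine ⟨G0 S1 S2, G0_ok h1 h2 h12 hs, FF A S1 S2 e, FF_isE hI A he h1 h2, FF_good hI A e, ?_⟩
  obtain ⟨u, hu⟩ := (hI.cpt (G0 S1 S2).d).2
  refine ⟨0, ⟨le_rfl, zero_le_one⟩, u, hu, u, hu, 1, Submonoid.one_mem _, ?_⟩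
  intro h0
  have h3 : FF A S1 S2 e 0 u u 1 = cc A e u := by simp [FF]
  rw [h3] at h0
  have hU := hI.gm A _ (hI.ub A 4 (u 0) (hu 0)).1
  have h4 : rr A e u = 0 := by
    have h5 : cc A e u (rr A e u) = 0 := by rw [h0]; rfl
    rw [cc_apply] at h5
    rcases smul_eq_zero.1 h5 with h6 | h6
    · exact inner_self_eq_zero.1 h6
    · exact h6
  have h5 : (star (Ub A 4 (u 0)) * Ub A 4 (u 0)) e = 0 := by
    rw [mul_ap]
    have : Ub A 4 (u 0) e = 0 := h4
    rw [this, map_zero]
  rw [hU.1] at h5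
  have h6 : e = 0 := h5
  rw [h6, norm_zero] at he
  exact zero_ne_one he

end

end Pool.Agent.Y929.EL
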