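import Pool.Agent.Y929.EL.Phi2

/-!
# Project EL, job PHI: the connecting map, third part
-/

set_option autoImplicit false

namespace Pool.Agent.Y929.EL

open Filter Topology Set
open scoped InnerProductSpace
open Pool.Agent.Y269.EL

noncomputable section

variable {H : Type} [NormedAddCommGroup H] [InnerProductSpace ℂ H] [CompleteSpace H]

/-! ### algebra -/

lemma conj_mul {V S T : H →L[ℂ] H} (hV : star V * V = 1) :
    V * (S * T) * star V = (V * S * star V) * (V * T * star V) := by
  calc V * (S * T) * star V = V * S * 1 * T * star V := by simp only [mul_one, mul_assoc]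
    _ = V * S * (star V * V) * T * star V := by rw [hV]
    _ = _ := by simp only [mul_assoc]

lemma conj_star (V T : H →L[ℂ] H) : V * star T * star V = star (V * T * star V) := by
  rw [star_mul, star_mul, star_star, mul_assoc]

lemma conj_add (V S T : H →L[ℂ] H) :
    V * (S + T) * star V = V * S * star V + V * T * star V := by
  rw [mul_add, add_mul]

lemma conj_scal {V : H →L[ℂ] H} (c : ℂ) : V * (c • (1 : H →L[ℂ] H)) * star V = c • (V * star V) := by
  rw [mul_smul_comm, mul_one, smul_mul_assoc]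

/-- products of orthogonal sums -/
lemma sum_mul {V W a b a' b' : H →L[ℂ] H} (hV : star V * V = 1) (hW : star W * W = 1)
    (hVW : star V * W = 0) :
    V * (a * a') * star V + W * (b * b') * star W =
      (V * a * star V + W * b * star W) * (V * a' * star V + W * b' * star W) := by
  have hWV : star W * V = 0 := by
    have := congrArg star hVW
    rwa [star_mul, star_star, star_zero] at this
  rw [add_mul, mul_add, mul_add, ← conj_mul hV, ← conj_mul hW]
  have e1 : V * a * star V * (W * b' * star W) = 0 := by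
    calc _ = V * a * (star V * W) * b' * star W := by simp only [mul_assoc]
      _ = 0 := by rw [hVW]; simp
  have e2 : W * b * star W * (V * a' * star V) = 0 := by
    calc _ = W * b * (star W * V) * a' * star V := by simp only [mul_assoc]
      _ = 0 := by rw [hWV]; simp
  rw [e1, e2]
  simp

variable (hI : IseStmt H)

include hI

lemma S2g_isom (A : Amb H) (G : Geo H) (hG : G.OK) {g : H →L[ℂ] H} (hg : g ∈ GM A) :
    star (G.S2 * g) * (G.S2 * g) = 1 := by
  calc star (G.S2 * g) * (G.S2 * g) = star g * (star G.S2 * G.S2) * g := by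
        rw [star_mul]; simp only [mul_assoc]
    _ = 1 := by rw [hG.s22, mul_one, (hI.gm A g hg).1]

omit hI in
lemma S1_S2g (G : Geo H) (hG : G.OK) (g : H →L[ℂ] H) : star G.S1 * (G.S2 * g) = 0 := by
  rw [← mul_assoc, hG.s12, zero_mul]

lemma blk_congr (A : Amb H) (G : Geo H) (D : Blk H) (hD : D.OK A G)
    {F F' : ℝ → Pt → Pt → (H →L[ℂ] H) → (H →L[ℂ] H)}
    (h : ∀ t ∈ Icc (0 : ℝ) 1, ∀ u ∈ XX G.d, ∀ v ∈ XX G.d, ∀ g ∈ GM A,
      F t u v g = F' t u v g)
    {s : ℝ} (hs : s ∈ Icc (0 : ℝ) 1) {w w' : Pt} (hw : w ∈ XX (G.next A D).d)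
    (hw' : w' ∈ XX (G.next A D).d) {g : H →L[ℂ] H} (hg : g ∈ GM A) (m : ℕ) :
    blk A G D F s w w' g m = blk A G D F' s w w' g m := by
  have hb : ∀ (i : ℕ) (τ : ℝ) (x : Pt), τ ∈ Icc (0 : ℝ) 1 → x ∈ XX (G.next A D).d →
      blkt A G D i F τ x = blkt A G D i F' τ x := by
    intro i τ x hτ hx
    unfold blkt
    rw [h τ hτ _ (Y1_mem hD i hx) _ (Y2_mem hD i hx) _ (hD.g_mem i)]
  unfold blk
  split_ifs
  · unfold Aop
    split_ifs with h2
    · exact h _ (two_mem hs h2) _ (Y1_mem hD _ hw) _ (Y1_mem hD _ hw') _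
        (Submonoid.mul_mem _ hg (hh_mem hI A G D _ hw'))
    · rw [h 0 ⟨le_rfl, zero_le_one⟩ _ (Y1_mem hD _ hw) _ (Y1_mem hD _ hw) _
        (Submonoid.one_mem _), hb _ _ _ (tau_mem hs (not_le.1 h2).le (hD.t_mem _)) hw']
  · exact hb m _ _ (hD.t_mem m) hw

lemma blk_scal (A : Amb H) (G : Geo H) (D : Blk H) (hG : G.OK) (c : ℂ)
    {s : ℝ} {w w' : Pt} (hw : w ∈ XX (G.next A D).d)
    (hw' : w' ∈ XX (G.next A D).d) {g : H →L[ℂ] H} (hg : g ∈ GM A) (m : ℕ) :
    blk A G D (fun _ _ _ _ => c • 1) s w w' g m = c • 1 := by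
  have hb : ∀ (i : ℕ) (τ : ℝ) (x : Pt), x ∈ XX (G.next A D).d →
      blkt A G D i (fun _ _ _ _ => c • 1) τ x = c • 1 := by
    intro i τ x hx
    unfold blkt
    rw [conj_scal, (hI.gm A _ (hh_mem hI A G D i hx)).2.1]
  unfold blk
  split_ifs
  · unfold Aop
    split_ifs with h2
    · rfl
    · rw [hb _ _ _ hw', conj_scal]
      have e : G.S2 * g * c • (1 : H →L[ℂ] H) * star g * star G.S2 =
          c • (G.S2 * star G.S2) := by
        calc _ = c • (G.S2 * (g * star g) * star G.S2) := by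
              rw [mul_smul_comm, mul_one]
              simp only [smul_mul_assoc, mul_assoc]
          _ = _ := by rw [(hI.gm A g hg).2.1, mul_one]
      rw [e, ← smul_add, hG.sum_one]
  · exact hb m _ _ hw

omit hI in
lemma blk_add (A : Amb H) (G : Geo H) (D : Blk H)
    (F F' : ℝ → Pt → Pt → (H →L[ℂ] H) → (H →L[ℂ] H)) (s : ℝ) (w w' : Pt)
    (g : H →L[ℂ] H) (m : ℕ) :
    blk A G D (fun t u v g => F t u v g + F' t u v g) s w w' g m =
      blk A G D F s w w' g m + blk A G D F' s w w' g m := by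
  have hb : ∀ (i : ℕ) (τ : ℝ) (x : Pt),
      blkt A G D i (fun t u v g => F t u v g + F' t u v g) τ x =
        blkt A G D i F τ x + blkt A G D i F' τ x := by
    intro i τ x
    unfold blkt
    exact conj_add _ _ _
  unfold blk
  split_ifs
  · unfold Aop
    split_ifs with h2
    · rfl
    · rw [hb]
      noncomm_ring
  · exact hb m _ _

lemma blk_mul (A : Amb H) (G : Geo H) (D : Blk H) (hG : G.OK)
    (F F' : ℝ → Pt → Pt → (H →L[ℂ] H) → (H →L[ℂ] H)) (s : ℝ) {w w' : Pt}
    (hw : w ∈ XX (G.next A D).d) (hw' : w' ∈ XX (G.next A D).d)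
    {g : H →L[ℂ] H} (hg : g ∈ GM A) (m : ℕ) :
    blk A G D (fun t u v g => F t u v g * F' t u v g) s w w' g m =
      blk A G D F s w w' g m * blk A G D F' s w w' g m := by
  have hb : ∀ (i : ℕ) (τ : ℝ) (x : Pt), x ∈ XX (G.next A D).d →
      blkt A G D i (fun t u v g => F t u v g * F' t u v g) τ x =
        blkt A G D i F τ x * blkt A G D i F' τ x := by
    intro i τ x hx
    unfold blkt
    exact conj_mul (hI.gm A _ (hh_mem hI A G D i hx)).1
  unfold blk
  split_ifs
  · by_cases h2 : s ≤ 1 / 2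
    · rw [Aop_of_le A G D _ _ h2, Aop_of_le A G D _ _ h2, Aop_of_le A G D _ _ h2]
    · have e : ∀ K : ℝ → Pt → Pt → (H →L[ℂ] H) → (H →L[ℂ] H),
          Aop A G D (m / 2) K s w w' g = A2 A G D (m / 2) K s w w' g := by
        intro K
        unfold Aop A2
        rw [if_neg h2]
      rw [e, e, e, A2_eq, A2_eq, A2_eq, hb _ _ _ hw']
      exact sum_mul hG.s11 (S2g_isom hI A G hG hg) (S1_S2g G hG g)
  · exact hb m _ _ hw

omit hI in
lemma blk_star (A : Amb H) (G : Geo H) (D : Blk H)
    (F : ℝ → Pt → Pt → (H →L[ℂ] H) → (H →L[ℂ] H)) (s : ℝ) (w w' : Pt)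
    (g : H →L[ℂ] H) (m : ℕ) :
    blk A G D (fun t u v g => star (F t u v g)) s w w' g m =
      star (blk A G D F s w w' g m) := by
  have hb : ∀ (i : ℕ) (τ : ℝ) (x : Pt),
      blkt A G D i (fun t u v g => star (F t u v g)) τ x = star (blkt A G D i F τ x) := by
    intro i τ x
    unfold blkt
    exact conj_star _ _
  unfold blk
  split_ifs
  · by_cases h2 : s ≤ 1 / 2
    · rw [Aop_of_le A G D _ _ h2, Aop_of_le A G D _ _ h2]
    · have e : ∀ K : ℝ → Pt → Pt → (H →L[ℂ] H) → (H →L[ℂ] H),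
          Aop A G D (m / 2) K s w w' g = A2 A G D (m / 2) K s w w' g := by
        intro K
        unfold Aop A2
        rw [if_neg h2]
      rw [e, e, A2_eq, A2_eq, hb, star_add, conj_star, conj_star]
  · exact hb m _ _

end

/-- **the connecting map** (project EL, job PHI) -/
theorem phi (H : Type) [NormedAddCommGroup H] [InnerProductSpace ℂ H] [CompleteSpace H]
    (hI : IseStmt H) : PhiStmt H where
  isE := fun A G D hG hD F hF => isE_Phi hI A G D hG hD hF
  congr := fun A G D hG hD F F' _ h s hs w hw w' hw' g hg => by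
    rw [Phi_eq, Phi_eq]
    congr 1
    funext m
    exact blk_congr hI A G D hD h hs hw hw' hg m
  scal := fun A G D hG hD c s hs w hw w' hw' g hg => by
    have e : blk A G D (fun _ _ _ _ => c • 1) s w w' g = fun _ => c • 1 :=
      funext fun m => blk_scal hI A G D hG c hw hw' hg m
    rw [Phi_eq, e]
    exact bs_smul_one A c
  add := fun A G D hG hD F F' hF hF' s hs w hw w' hw' g hg => by
    obtain ⟨C, hC0, hC⟩ := isE_bdd hF
    obtain ⟨C', hC0', hC'⟩ := isE_bdd hF'
    rw [Phi_eq, Phi_eq, Phi_eq,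
      ← bs_add A (fun m => blk_norm hI A G D hG hD hC0 hC hs hw hw' hg m)
        (fun m => blk_norm hI A G D hG hD hC0' hC' hs hw hw' hg m)]
    congr 1
    funext m
    exact blk_add A G D F F' s w w' g m
  mul := fun A G D hG hD F F' hF hF' s hs w hw w' hw' g hg => by
    obtain ⟨C, hC0, hC⟩ := isE_bdd hF
    obtain ⟨C', hC0', hC'⟩ := isE_bdd hF'
    rw [Phi_eq, Phi_eq, Phi_eq,
      ← bs_mul A (fun m => blk_norm hI A G D hG hD hC0 hC hs hw hw' hg m)
        (fun m => blk_norm hI A G D hG hD hC0' hC' hs hw hw' hg m)]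
    congr 1
    funext m
    exact blk_mul hI A G D hG F F' s hw hw' hg m
  star := fun A G D hG hD F hF s hs w hw w' hw' g hg => by
    obtain ⟨C, hC0, hC⟩ := isE_bdd hF
    rw [Phi_eq, Phi_eq,
      ← bs_star A (fun m => blk_norm hI A G D hG hD hC0 hC hs hw hw' hg m)]
    congr 1
    funext m
    exact blk_star A G D F s w w' g m

end Pool.Agent.Y929.EL
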