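import Pool.Agent.Y269.EL.Stm2
import Pool.Agent.Y269.EL.Base

/-!
# Project EL, job PHI: the connecting map
-/

set_option autoImplicit false

namespace Pool.Agent.Y929.EL

open Filter Topology Set
open scoped InnerProductSpace
open Pool.Agent.Y269.EL

noncomputable section

variable {H : Type} [NormedAddCommGroup H] [InnerProductSpace ℂ H] [CompleteSpace H]

/-! ### points -/

lemma next_d_c1 (A : Amb H) (G : Geo H) (D : Blk H) (m k : ℕ) :
    (G.next A D).d (c1 m k) = G.d k :=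
  rec3_c1 (fun m => 2 * (2 * ∑ k ∈ D.L m, G.cap k) + 1) (fun _ k => G.d k) (fun _ k => G.d k) m k

lemma next_d_c2 (A : Amb H) (G : Geo H) (D : Blk H) (m k : ℕ) :
    (G.next A D).d (c2 m k) = G.d k :=
  rec3_c2 (fun m => 2 * (2 * ∑ k ∈ D.L m, G.cap k) + 1) (fun _ k => G.d k) (fun _ k => G.d k) m k

lemma Y1_mem {A : Amb H} {G : Geo H} {D : Blk H} (hD : D.OK A G) (m : ℕ) {w : Pt}
    (hw : w ∈ XX (G.next A D).d) : Y1 D m w ∈ XX G.d := by
  intro k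
  unfold Y1
  split_ifs
  · exact hD.p1_mem m k
  · have := hw (c1 m k)
    rwa [next_d_c1] at this

lemma Y2_mem {A : Amb H} {G : Geo H} {D : Blk H} (hD : D.OK A G) (m : ℕ) {w : Pt}
    (hw : w ∈ XX (G.next A D).d) : Y2 D m w ∈ XX G.d := by
  intro k
  unfold Y2
  split_ifs
  · exact hD.p2_mem m k
  · have := hw (c2 m k)
    rwa [next_d_c2] at this

lemma c1_inj {m k k' : ℕ} (h : c1 m k = c1 m k') : k = k' := by
  unfold c1 at h
  have := (Nat.pair_eq_pair.1 h).2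
  omega

lemma c2_inj {m k k' : ℕ} (h : c2 m k = c2 m k') : k = k' := by
  unfold c2 at h
  have := (Nat.pair_eq_pair.1 h).2
  omega

lemma Y1_flp (D : Blk H) (m j : ℕ) (w : Pt) :
    Y1 D m (flp j w) = Y1 D m w ∨ ∃ k, Y1 D m (flp j w) = flp k (Y1 D m w) := by
  by_cases h : ∃ k, k ∉ D.L m ∧ c1 m k = j
  · right
    obtain ⟨k, hk, hj⟩ := h
    refine ⟨k, funext fun k' => ?_⟩
    by_cases hk' : k' = k
    · subst hk'
      rw [flp, flp, Function.update_self, Y1, Y1, if_neg hk, if_neg hk, hj, Function.update_self]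
    · rw [flp, flp, Function.update_of_ne hk', Y1, Y1]
      split_ifs
      · rfl
      · rw [Function.update_of_ne]
        intro h1
        rw [← hj] at h1
        exact hk' (c1_inj h1)
  · left
    push Not at h
    funext k'
    unfold Y1
    split_ifs with hk'
    · rfl
    · rw [flp, Function.update_of_ne (h k' hk')]

lemma Y2_flp (D : Blk H) (m j : ℕ) (w : Pt) :
    Y2 D m (flp j w) = Y2 D m w ∨ ∃ k, Y2 D m (flp j w) = flp k (Y2 D m w) := by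
  by_cases h : ∃ k, k ∉ D.L m ∧ c2 m k = j
  · right
    obtain ⟨k, hk, hj⟩ := h
    refine ⟨k, funext fun k' => ?_⟩
    by_cases hk' : k' = k
    · subst hk'
      rw [flp, flp, Function.update_self, Y2, Y2, if_neg hk, if_neg hk, hj, Function.update_self]
    · rw [flp, flp, Function.update_of_ne hk', Y2, Y2]
      split_ifs
      · rfl
      · rw [Function.update_of_ne]
        intro h1
        rw [← hj] at h1
        exact hk' (c2_inj h1)
  · left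
    push Not at h
    funext k'
    unfold Y2
    split_ifs with hk'
    · rfl
    · rw [flp, Function.update_of_ne (h k' hk')]

lemma Y1_cont (D : Blk H) (m : ℕ) : Continuous (Y1 D m) := by
  refine continuous_pi fun k => ?_
  unfold Y1
  by_cases h : k ∈ D.L m
  · simp only [h, if_true]
    exact continuous_const
  · simp only [h, if_false]
    exact continuous_apply _

lemma Y2_cont (D : Blk H) (m : ℕ) : Continuous (Y2 D m) := by
  refine continuous_pi fun k => ?_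
  unfold Y2
  by_cases h : k ∈ D.L m
  · simp only [h, if_true]
    exact continuous_const
  · simp only [h, if_false]
    exact continuous_apply _

/-! ### the twisting unitaries -/

variable (hI : IseStmt H)

include hI

lemma hh_mem (A : Amb H) (G : Geo H) (D : Blk H) (m : ℕ) {w : Pt}
    (hw : w ∈ XX (G.next A D).d) : hh A G D m w ∈ GM A := by
  unfold hh
  split_ifs
  · exact Submonoid.one_mem _
  · exact (hI.ub A _ _ (hw (cS m))).1

lemma hh_cont (A : Amb H) (G : Geo H) (D : Blk H) (m : ℕ) : Continuous (hh A G D m) := by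
  unfold hh
  by_cases h : Even m
  · simp only [h, if_true]
    exact continuous_const
  · simp only [h, if_false]
    exact (hI.ubc A _).comp (continuous_apply _)

lemma hh_flp (A : Amb H) (G : Geo H) (D : Blk H) (m j : ℕ) {w : Pt}
    (hw : w ∈ XX (G.next A D).d) :
    hh A G D m (flp j w) = hh A G D m w ∨ hh A G D m (flp j w) = -hh A G D m w := by
  unfold hh
  split_ifs
  · exact Or.inl rfl
  · by_cases hj : cS m = j
    · right
      subst hj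
      rw [flp, Function.update_self]
      exact (hI.ub A _ _ (hw (cS m))).2.2.2.2
    · left
      rw [flp, Function.update_of_ne hj]

lemma gm_norm (A : Amb H) {g : H →L[ℂ] H} (hg : g ∈ GM A) : ‖g‖ ≤ 1 :=
  norm_le_one_of_isom (hI.gm A g hg).1

omit hI in
lemma conj_norm {V T : H →L[ℂ] H} {C : ℝ} (hV : ‖V‖ ≤ 1) (hT : ‖T‖ ≤ C) :
    ‖V * T * star V‖ ≤ C := by
  have h0 : 0 ≤ C := (norm_nonneg _).trans hT
  calc ‖V * T * star V‖ ≤ ‖V‖ * ‖T‖ * ‖star V‖ :=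
        (norm_mul_le _ _).trans (mul_le_mul_of_nonneg_right (norm_mul_le _ _) (norm_nonneg _))
    _ ≤ 1 * C * 1 := by
        rw [norm_star]
        exact mul_le_mul (mul_le_mul hV hT (norm_nonneg _) zero_le_one) hV (norm_nonneg _)
          (by linarith)
    _ = C := by ring

/-! ### blocks -/

omit hI in
/-- the second formula for the even blocks -/
lemma Aop_of_le (A : Amb H) (G : Geo H) (D : Blk H) (i : ℕ)
    (F : ℝ → Pt → Pt → (H →L[ℂ] H) → (H →L[ℂ] H)) {s : ℝ} (hs : s ≤ 1 / 2) (w w' : Pt)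
    (g : H →L[ℂ] H) : Aop A G D i F s w w' g =
      F (2 * s) (Y1 D (2 * i) w) (Y1 D i w') (g * hh A G D i w') := by
  unfold Aop
  rw [if_pos hs]

/-- the second formula for the even blocks -/
def A2 (A : Amb H) (G : Geo H) (D : Blk H) (i : ℕ)
    (F : ℝ → Pt → Pt → (H →L[ℂ] H) → (H →L[ℂ] H)) (s : ℝ) (w w' : Pt) (g : H →L[ℂ] H) :
    H →L[ℂ] H :=
  G.S1 * F 0 (Y1 D (2 * i) w) (Y1 D (2 * i) w) 1 * star G.S1 +
    G.S2 * g * blkt A G D i F ((2 * s - 1) * D.t i) w' * star g * star G.S2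

omit hI in
lemma A2_eq (A : Amb H) (G : Geo H) (D : Blk H) (i : ℕ)
    (F : ℝ → Pt → Pt → (H →L[ℂ] H) → (H →L[ℂ] H)) (s : ℝ) (w w' : Pt) (g : H →L[ℂ] H) :
    A2 A G D i F s w w' g = G.S1 * F 0 (Y1 D (2 * i) w) (Y1 D (2 * i) w) 1 * star G.S1 +
      (G.S2 * g) * blkt A G D i F ((2 * s - 1) * D.t i) w' * star (G.S2 * g) := by
  rw [A2, star_mul]
  simp only [mul_assoc]

lemma Aop_half (A : Amb H) (G : Geo H) (D : Blk H) (hD : D.OK A G) (i : ℕ)
    {F : ℝ → Pt → Pt → (H →L[ℂ] H) → (H →L[ℂ] H)} (hF : IsE A G F) {w w' : Pt}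
    (hw : w ∈ XX (G.next A D).d) (hw' : w' ∈ XX (G.next A D).d) {g : H →L[ℂ] H} (hg : g ∈ GM A) :
    F (2 * (1 / 2)) (Y1 D (2 * i) w) (Y1 D i w') (g * hh A G D i w') =
      A2 A G D i F (1 / 2) w w' g := by
  have hgh := Submonoid.mul_mem _ hg (hh_mem hI A G D i hw')
  have h1 := hF.bd1 _ (Y1_mem hD (2 * i) hw) _ (Y1_mem hD i hw') _ hgh
  have h2 := hF.bd0 _ (Y1_mem hD i hw') _ (Y2_mem hD i hw') _ (hD.g_mem i)
  rw [show (2 : ℝ) * (1 / 2) = 1 by norm_num, h1, A2, blkt,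
    show ((2 : ℝ) * (1 / 2) - 1) * D.t i = 0 by norm_num, h2, star_mul]
  simp only [mul_assoc]

lemma Aop_of_ge (A : Amb H) (G : Geo H) (D : Blk H) (hD : D.OK A G) (i : ℕ)
    {F : ℝ → Pt → Pt → (H →L[ℂ] H) → (H →L[ℂ] H)} (hF : IsE A G F) {w w' : Pt}
    (hw : w ∈ XX (G.next A D).d) (hw' : w' ∈ XX (G.next A D).d) {g : H →L[ℂ] H} (hg : g ∈ GM A)
    {s : ℝ} (hs : 1 / 2 ≤ s) : Aop A G D i F s w w' g = A2 A G D i F s w w' g := by
  by_cases h : s ≤ 1 / 2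
  · have hs2 : s = 1 / 2 := le_antisymm h hs
    rw [Aop_of_le A G D i F h, hs2]
    exact Aop_half hI A G D hD i hF hw hw' hg
  · unfold Aop
    rw [if_neg h, A2]

omit hI in
lemma two_mem {s : ℝ} (hs : s ∈ Icc (0 : ℝ) 1) (h : s ≤ 1 / 2) : 2 * s ∈ Icc (0 : ℝ) 1 :=
  ⟨by linarith [hs.1], by linarith⟩

omit hI in
lemma tau_mem {s t : ℝ} (hs : s ∈ Icc (0 : ℝ) 1) (h : 1 / 2 ≤ s) (ht : t ∈ Icc (0 : ℝ) 1) :
    (2 * s - 1) * t ∈ Icc (0 : ℝ) 1 := by
  have h1 : 0 ≤ 2 * s - 1 := by linarith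
  have h2 : 2 * s - 1 ≤ 1 := by linarith [hs.2]
  exact ⟨mul_nonneg h1 ht.1, mul_le_one₀ h2 ht.1 ht.2⟩

omit hI in
lemma isE_bdd {A : Amb H} {G : Geo H} {F : ℝ → Pt → Pt → (H →L[ℂ] H) → (H →L[ℂ] H)}
    (hF : IsE A G F) : ∃ C : ℝ, 0 ≤ C ∧ ∀ t ∈ Icc (0 : ℝ) 1, ∀ u ∈ XX G.d, ∀ v ∈ XX G.d,
      ∀ g ∈ GM A, ‖F t u v g‖ ≤ C := by
  obtain ⟨C, hC⟩ := hF.sc.bdd
  refine ⟨max C 0, le_max_right _ _, fun t ht u hu v hv g hg => ?_⟩
  exact (hC (t, u, v, g) ⟨ht, hu, hv, hg⟩).trans (le_max_left _ _)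

lemma blkt_norm (A : Amb H) (G : Geo H) (D : Blk H) (hD : D.OK A G) (m : ℕ)
    {F : ℝ → Pt → Pt → (H →L[ℂ] H) → (H →L[ℂ] H)} {C : ℝ}
    (hC : ∀ t ∈ Icc (0 : ℝ) 1, ∀ u ∈ XX G.d, ∀ v ∈ XX G.d, ∀ g ∈ GM A, ‖F t u v g‖ ≤ C)
    {τ : ℝ} (hτ : τ ∈ Icc (0 : ℝ) 1) {w : Pt} (hw : w ∈ XX (G.next A D).d) :
    ‖blkt A G D m F τ w‖ ≤ C :=
  conj_norm (gm_norm hI A (hh_mem hI A G D m hw))
    (hC τ hτ _ (Y1_mem hD m hw) _ (Y2_mem hD m hw) _ (hD.g_mem m))

lemma S2g_norm (A : Amb H) (G : Geo H) (hG : G.OK) {g : H →L[ℂ] H} (hg : g ∈ GM A) :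
    ‖G.S2 * g‖ ≤ 1 := by
  calc ‖G.S2 * g‖ ≤ ‖G.S2‖ * ‖g‖ := norm_mul_le _ _
    _ ≤ 1 * 1 := mul_le_mul (norm_le_one_of_isom hG.s22) (gm_norm hI A hg) (norm_nonneg _)
        zero_le_one
    _ = 1 := by norm_num

lemma A2_norm (A : Amb H) (G : Geo H) (D : Blk H) (hG : G.OK) (hD : D.OK A G) (i : ℕ)
    {F : ℝ → Pt → Pt → (H →L[ℂ] H) → (H →L[ℂ] H)} {C : ℝ}
    (hC : ∀ t ∈ Icc (0 : ℝ) 1, ∀ u ∈ XX G.d, ∀ v ∈ XX G.d, ∀ g ∈ GM A, ‖F t u v g‖ ≤ C)
    {s : ℝ} (hs : s ∈ Icc (0 : ℝ) 1) (h : 1 / 2 ≤ s) {w w' : Pt} (hw : w ∈ XX (G.next A D).d)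
    (hw' : w' ∈ XX (G.next A D).d) {g : H →L[ℂ] H} (hg : g ∈ GM A) :
    ‖A2 A G D i F s w w' g‖ ≤ 2 * C := by
  rw [A2_eq]
  have h1 := conj_norm (norm_le_one_of_isom hG.s11) (hC 0 ⟨le_rfl, zero_le_one⟩ _
    (Y1_mem hD (2 * i) hw) _ (Y1_mem hD (2 * i) hw) 1 (Submonoid.one_mem _))
  have h2 := conj_norm (S2g_norm hI A G hG hg)
    (blkt_norm hI A G D hD i hC (tau_mem hs h (hD.t_mem i)) hw')
  refine (norm_add_le _ _).trans ?_
  linarith

lemma Aop_norm (A : Amb H) (G : Geo H) (D : Blk H) (hG : G.OK) (hD : D.OK A G) (i : ℕ)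
    {F : ℝ → Pt → Pt → (H →L[ℂ] H) → (H →L[ℂ] H)} {C : ℝ} (hC0 : 0 ≤ C)
    (hC : ∀ t ∈ Icc (0 : ℝ) 1, ∀ u ∈ XX G.d, ∀ v ∈ XX G.d, ∀ g ∈ GM A, ‖F t u v g‖ ≤ C)
    {s : ℝ} (hs : s ∈ Icc (0 : ℝ) 1) {w w' : Pt} (hw : w ∈ XX (G.next A D).d)
    (hw' : w' ∈ XX (G.next A D).d) {g : H →L[ℂ] H} (hg : g ∈ GM A) :
    ‖Aop A G D i F s w w' g‖ ≤ 2 * C := by
  by_cases h : s ≤ 1 / 2
  · rw [Aop_of_le A G D i F h]
    have := hC _ (two_mem hs h) _ (Y1_mem hD (2 * i) hw) _ (Y1_mem hD i hw') _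
      (Submonoid.mul_mem _ hg (hh_mem hI A G D i hw'))
    linarith
  · have h2 := A2_norm hI A G D hG hD i hC hs (not_le.1 h).le hw hw' hg
    unfold Aop
    rw [if_neg h]
    exact h2

/-- the blocks of the connecting map -/
def blk (A : Amb H) (G : Geo H) (D : Blk H)
    (F : ℝ → Pt → Pt → (H →L[ℂ] H) → (H →L[ℂ] H)) (s : ℝ) (w w' : Pt) (g : H →L[ℂ] H) (m : ℕ) :
    H →L[ℂ] H :=
  if Even m then Aop A G D (m / 2) F s w w' g else blkt A G D m F (D.t m) w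

omit hI in
lemma Phi_eq (A : Amb H) (G : Geo H) (D : Blk H)
    (F : ℝ → Pt → Pt → (H →L[ℂ] H) → (H →L[ℂ] H)) (s : ℝ) (w w' : Pt) (g : H →L[ℂ] H) :
    Phi A G D F s w w' g = bs A (blk A G D F s w w' g) := rfl

lemma blk_norm (A : Amb H) (G : Geo H) (D : Blk H) (hG : G.OK) (hD : D.OK A G)
    {F : ℝ → Pt → Pt → (H →L[ℂ] H) → (H →L[ℂ] H)} {C : ℝ} (hC0 : 0 ≤ C)
    (hC : ∀ t ∈ Icc (0 : ℝ) 1, ∀ u ∈ XX G.d, ∀ v ∈ XX G.d, ∀ g ∈ GM A, ‖F t u v g‖ ≤ C)
    {s : ℝ} (hs : s ∈ Icc (0 : ℝ) 1) {w w' : Pt} (hw : w ∈ XX (G.next A D).d)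
    (hw' : w' ∈ XX (G.next A D).d) {g : H →L[ℂ] H} (hg : g ∈ GM A) (m : ℕ) :
    ‖blk A G D F s w w' g m‖ ≤ 2 * C := by
  unfold blk
  split_ifs
  · exact Aop_norm hI A G D hG hD _ hC0 hC hs hw hw' hg
  · have := blkt_norm hI A G D hD m hC (hD.t_mem m) hw
    linarith

/-! ### strong continuity -/

lemma SC_blkt (A : Amb H) (G : Geo H) (D : Blk H) (hD : D.OK A G) (m : ℕ)
    {F : ℝ → Pt → Pt → (H →L[ℂ] H) → (H →L[ℂ] H)} (hF : IsE A G F) {Z : Type}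
    [TopologicalSpace Z] {E : Set Z} (τ : Z → ℝ) (w : Z → Pt) (hτ : Continuous τ)
    (hw : Continuous w) (h1 : ∀ z ∈ E, τ z ∈ Icc (0 : ℝ) 1)
    (h2 : ∀ z ∈ E, w z ∈ XX (G.next A D).d) :
    SC E fun z => blkt A G D m F (τ z) (w z) := by
  have hh1 : SC E fun z => hh A G D m (w z) :=
    SC.of_contOn ((hh_cont hI A G D m).comp hw).continuousOn (C := 1)
      fun z hz => gm_norm hI A (hh_mem hI A G D m (h2 z hz))
  have hF1 : SC E fun z => F (τ z) (Y1 D m (w z)) (Y2 D m (w z)) (D.g m) := by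
    have := SC.comp (D' := E) hF.sc (φ := fun z => (τ z, Y1 D m (w z), Y2 D m (w z), D.g m))
      (Continuous.continuousOn (hτ.prodMk (((Y1_cont D m).comp hw).prodMk
        (((Y2_cont D m).comp hw).prodMk continuous_const))))
      (fun z hz => ⟨h1 z hz, Y1_mem hD m (h2 z hz), Y2_mem hD m (h2 z hz), hD.g_mem m⟩)
    exact this
  exact (hh1.mul hF1).mul hh1.star

lemma SC_Aop (A : Amb H) (G : Geo H) (D : Blk H) (hG : G.OK) (hD : D.OK A G) (i : ℕ)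
    {F : ℝ → Pt → Pt → (H →L[ℂ] H) → (H →L[ℂ] H)} (hF : IsE A G F) :
    SC (Dom A (G.next A D).d) fun z => Aop A G D i F z.1 z.2.1 z.2.2.1 z.2.2.2 := by
  have cg : ∀ E : Set (ℝ × Pt × Pt × (H →L[ℂ] H)), E ⊆ Dom A (G.next A D).d →
      SC E fun z => z.2.2.2 := by
    intro E hE
    refine SC.of_contOn (C := 1) ?_ ?_
    · exact (continuous_snd.comp (continuous_snd.comp continuous_snd)).continuousOn
    · exact fun z hz => gm_norm hI A (hE hz).2.2.2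
  have key := SC.ite (D := Dom A (G.next A D).d) (φ := fun z : ℝ × Pt × Pt × (H →L[ℂ] H) => z.1)
    continuous_fst (c := 1 / 2)
    (F := fun z => F (2 * z.1) (Y1 D (2 * i) z.2.1) (Y1 D i z.2.2.1)
      (z.2.2.2 * hh A G D i z.2.2.1))
    (F' := fun z => A2 A G D i F z.1 z.2.1 z.2.2.1 z.2.2.2) ?_ ?_ ?_
  · refine key.congr fun z _ => ?_
    unfold Aop A2
    rfl
  · have := SC.comp (D' := Dom A (G.next A D).d ∩ {z | z.1 ≤ 1 / 2}) hF.sc
      (φ := fun z => (2 * z.1, Y1 D (2 * i) z.2.1, Y1 D i z.2.2.1,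
        z.2.2.2 * hh A G D i z.2.2.1)) ?_ ?_
    · exact this
    · refine Continuous.continuousOn ?_
      refine (continuous_const.mul continuous_fst).prodMk ?_
      refine ((Y1_cont D _).comp (continuous_fst.comp continuous_snd)).prodMk ?_
      refine ((Y1_cont D _).comp (continuous_fst.comp
        (continuous_snd.comp continuous_snd))).prodMk ?_
      exact (continuous_snd.comp (continuous_snd.comp continuous_snd)).mul
        ((hh_cont hI A G D i).comp (continuous_fst.comp (continuous_snd.comp continuous_snd)))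
    · rintro ⟨s, w, w', g⟩ ⟨⟨hs, hw, hw', hg⟩, hle⟩
      exact ⟨two_mem hs hle, Y1_mem hD _ hw, Y1_mem hD _ hw',
        Submonoid.mul_mem _ hg (hh_mem hI A G D i hw')⟩
  · have hsub : Dom A (G.next A D).d ∩ {z | 1 / 2 ≤ z.1} ⊆ Dom A (G.next A D).d :=
      Set.inter_subset_left
    have hg := cg _ hsub
    have h0 : SC (Dom A (G.next A D).d ∩ {z | 1 / 2 ≤ z.1})
        fun z => F 0 (Y1 D (2 * i) z.2.1) (Y1 D (2 * i) z.2.1) 1 := by
      have := SC.comp (D' := Dom A (G.next A D).d ∩ {z | 1 / 2 ≤ z.1}) hF.sc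
        (φ := fun z => ((0 : ℝ), Y1 D (2 * i) z.2.1, Y1 D (2 * i) z.2.1, (1 : H →L[ℂ] H))) ?_ ?_
      · exact this
      · refine Continuous.continuousOn ?_
        refine continuous_const.prodMk ?_
        refine ((Y1_cont D _).comp (continuous_fst.comp continuous_snd)).prodMk ?_
        refine ((Y1_cont D _).comp (continuous_fst.comp continuous_snd)).prodMk ?_
        exact continuous_const
      · rintro ⟨s, w, w', g⟩ ⟨⟨hs, hw, hw', hg⟩, hle⟩
        exact ⟨⟨le_rfl, zero_le_one⟩, Y1_mem hD _ hw, Y1_mem hD _ hw, Submonoid.one_mem _⟩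
    have hb : SC (Dom A (G.next A D).d ∩ {z | 1 / 2 ≤ z.1})
        fun z => blkt A G D i F ((2 * z.1 - 1) * D.t i) z.2.2.1 := by
      have c1 : Continuous fun z : ℝ × Pt × Pt × (H →L[ℂ] H) => (2 * z.1 - 1) * D.t i :=
        ((continuous_const.mul continuous_fst).sub continuous_const).mul continuous_const
      have c2 : Continuous fun z : ℝ × Pt × Pt × (H →L[ℂ] H) => z.2.2.1 :=
        continuous_fst.comp (continuous_snd.comp continuous_snd)
      refine SC_blkt hI A G D hD i hF _ _ c1 c2 ?_ ?_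
      · rintro ⟨s, w, w', g⟩ ⟨⟨hs, hw, hw', hg⟩, hle⟩
        exact tau_mem hs hle (hD.t_mem i)
      · rintro ⟨s, w, w', g⟩ ⟨⟨hs, hw, hw', hg⟩, hle⟩
        exact hw'
    have p1 := ((SC.const (D := Dom A (G.next A D).d ∩ {z | 1 / 2 ≤ z.1}) G.S1).mul h0).mul
      (SC.const (star G.S1))
    have p2 := ((((SC.const (D := Dom A (G.next A D).d ∩ {z | 1 / 2 ≤ z.1}) G.S2).mul hg).mul
      hb).mul hg.star).mul (SC.const (star G.S2))
    refine (p1.add p2).congr fun z _ => ?_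
    rw [A2]
  · rintro ⟨s, w, w', g⟩ ⟨hs, hw, hw', hg⟩ hs2
    have hs3 : s = 1 / 2 := hs2
    subst hs3
    exact Aop_half hI A G D hD i hF hw hw' hg

lemma SC_Phi (A : Amb H) (G : Geo H) (D : Blk H) (hG : G.OK) (hD : D.OK A G)
    {F : ℝ → Pt → Pt → (H →L[ℂ] H) → (H →L[ℂ] H)} (hF : IsE A G F) :
    SC (Dom A (G.next A D).d) fun z => Phi A G D F z.1 z.2.1 z.2.2.1 z.2.2.2 := by
  obtain ⟨C, hC0, hC⟩ := isE_bdd hF
  have := SC.bs A (T := fun m z => blk A G D F z.1 z.2.1 z.2.2.1 z.2.2.2 m)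
    (D := Dom A (G.next A D).d) (C := 2 * C) ?_ ?_
  · exact this
  · intro m
    by_cases hm : Even m
    · refine (SC_Aop hI A G D hG hD (m / 2) hF).congr fun z _ => ?_
      unfold blk
      rw [if_pos hm]
    · refine (SC_blkt hI A G D hD m hF (E := Dom A (G.next A D).d)
        (fun _ => D.t m) (fun z => z.2.1) continuous_const
        (continuous_fst.comp continuous_snd) (fun _ _ => hD.t_mem m)
        (fun z hz => hz.2.1)).congr fun z _ => ?_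
      unfold blk
      rw [if_neg hm]
  · rintro m ⟨s, w, w', g⟩ ⟨hs, hw, hw', hg⟩
    exact blk_norm hI A G D hG hD hC0 hC hs hw hw' hg m

end

end Pool.Agent.Y929.EL
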