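import Pool.Agent.Y929.EL.Phi

/-!
# Project EL, job PHI: the connecting map, second part
-/

set_option autoImplicit false

namespace Pool.Agent.Y929.EL

open Filter Topology Set
open scoped InnerProductSpace
open Pool.Agent.Y269.EL

noncomputable section

variable {H : Type} [NormedAddCommGroup H] [InnerProductSpace ℂ H] [CompleteSpace H]

/-! ### equicontinuity -/

lemma conj_sub {V T T' : H →L[ℂ] H} {ε : ℝ} (hV : ‖V‖ ≤ 1) (hT : ‖T - T'‖ ≤ ε) :
    ‖V * T * star V - V * T' * star V‖ ≤ ε := by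
  have h : V * T * star V - V * T' * star V = V * (T - T') * star V := by
    rw [mul_sub, sub_mul]
  rw [h]
  exact conj_norm hV hT

variable (hI : IseStmt H)

include hI

lemma A2_sub (A : Amb H) (G : Geo H) (D : Blk H) (hG : G.OK) (hD : D.OK A G) (i : ℕ)
    {F : ℝ → Pt → Pt → (H →L[ℂ] H) → (H →L[ℂ] H)} {ε δ : ℝ}
    (h : ∀ t ∈ Icc (0 : ℝ) 1, ∀ t' ∈ Icc (0 : ℝ) 1,
      |t - t'| < δ → ∀ u ∈ XX G.d, ∀ v ∈ XX G.d, ∀ g ∈ GM A, ‖F t u v g - F t' u v g‖ ≤ ε)
    {s s' : ℝ} (hs : s ∈ Icc (0 : ℝ) 1) (hs' : s' ∈ Icc (0 : ℝ) 1) (h1 : 1 / 2 ≤ s)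
    (h1' : 1 / 2 ≤ s') (hss : |s - s'| < δ / 2) {w w' : Pt} (hw' : w' ∈ XX (G.next A D).d)
    {g : H →L[ℂ] H} (hg : g ∈ GM A) : ‖A2 A G D i F s w w' g - A2 A G D i F s' w w' g‖ ≤ ε := by
  rw [A2_eq, A2_eq, add_sub_add_left_eq_sub]
  refine conj_sub (S2g_norm hI A G hG hg) ?_
  unfold blkt
  refine conj_sub (gm_norm hI A (hh_mem hI A G D i hw')) ?_
  refine h _ (tau_mem hs h1 (hD.t_mem i)) _ (tau_mem hs' h1' (hD.t_mem i)) ?_ _
    (Y1_mem hD i hw') _ (Y2_mem hD i hw') _ (hD.g_mem i)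
  have e : (2 * s - 1) * D.t i - (2 * s' - 1) * D.t i = 2 * (s - s') * D.t i := by ring
  rw [e, abs_mul, abs_mul, abs_two, abs_of_nonneg (hD.t_mem i).1]
  have ht1 := (hD.t_mem i).2
  have ht0 := (hD.t_mem i).1
  have hn := abs_nonneg (s - s')
  nlinarith

lemma Aop_sub (A : Amb H) (G : Geo H) (D : Blk H) (hG : G.OK) (hD : D.OK A G) (i : ℕ)
    {F : ℝ → Pt → Pt → (H →L[ℂ] H) → (H →L[ℂ] H)} (hF : IsE A G F) {ε δ : ℝ} (hε : 0 ≤ ε)
    (h : ∀ t ∈ Icc (0 : ℝ) 1, ∀ t' ∈ Icc (0 : ℝ) 1,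
      |t - t'| < δ → ∀ u ∈ XX G.d, ∀ v ∈ XX G.d, ∀ g ∈ GM A, ‖F t u v g - F t' u v g‖ ≤ ε)
    {s s' : ℝ} (hs : s ∈ Icc (0 : ℝ) 1) (hs' : s' ∈ Icc (0 : ℝ) 1) (hss : |s - s'| < δ / 2)
    {w w' : Pt} (hw : w ∈ XX (G.next A D).d) (hw' : w' ∈ XX (G.next A D).d)
    {g : H →L[ℂ] H} (hg : g ∈ GM A) :
    ‖Aop A G D i F s w w' g - Aop A G D i F s' w w' g‖ ≤ 2 * ε := by
  have low : ∀ a ∈ Icc (0 : ℝ) 1, ∀ b ∈ Icc (0 : ℝ) 1, a ≤ 1 / 2 → b ≤ 1 / 2 →
      |a - b| < δ / 2 → ‖Aop A G D i F a w w' g - Aop A G D i F b w w' g‖ ≤ ε := by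
    intro a ha b hb ha2 hb2 hab
    rw [Aop_of_le A G D i F ha2, Aop_of_le A G D i F hb2]
    refine h _ (two_mem ha ha2) _ (two_mem hb hb2) ?_ _ (Y1_mem hD _ hw) _ (Y1_mem hD _ hw') _
      (Submonoid.mul_mem _ hg (hh_mem hI A G D i hw'))
    have e : 2 * a - 2 * b = 2 * (a - b) := by ring
    rw [e, abs_mul, abs_two]
    linarith
  have high : ∀ a ∈ Icc (0 : ℝ) 1, ∀ b ∈ Icc (0 : ℝ) 1, 1 / 2 ≤ a → 1 / 2 ≤ b →
      |a - b| < δ / 2 → ‖Aop A G D i F a w w' g - Aop A G D i F b w w' g‖ ≤ ε := by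
    intro a ha b hb ha2 hb2 hab
    rw [Aop_of_ge hI A G D hD i hF hw hw' hg ha2, Aop_of_ge hI A G D hD i hF hw hw' hg hb2]
    exact A2_sub hI A G D hG hD i h ha hb ha2 hb2 hab hw' hg
  have hm : (1 / 2 : ℝ) ∈ Icc (0 : ℝ) 1 := ⟨by norm_num, by norm_num⟩
  have tri : ∀ a ∈ Icc (0 : ℝ) 1, ∀ b ∈ Icc (0 : ℝ) 1, a ≤ 1 / 2 → 1 / 2 ≤ b →
      |a - b| < δ / 2 → ‖Aop A G D i F a w w' g - Aop A G D i F b w w' g‖ ≤ 2 * ε := by
    intro a ha b hb ha2 hb2 hab
    rw [abs_of_nonpos (by linarith)] at hab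
    have l1 := low a ha _ hm ha2 le_rfl (by rw [abs_of_nonpos (by linarith)]; linarith)
    have l2 := high _ hm b hb le_rfl hb2 (by rw [abs_of_nonpos (by linarith)]; linarith)
    calc ‖Aop A G D i F a w w' g - Aop A G D i F b w w' g‖ =
        ‖(Aop A G D i F a w w' g - Aop A G D i F (1 / 2) w w' g) +
          (Aop A G D i F (1 / 2) w w' g - Aop A G D i F b w w' g)‖ := by
          rw [sub_add_sub_cancel]
      _ ≤ _ := norm_add_le _ _
      _ ≤ 2 * ε := by linarith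
  rcases le_total s (1 / 2) with h1 | h1 <;> rcases le_total s' (1 / 2) with h2 | h2
  · linarith [low s hs s' hs' h1 h2 hss]
  · exact tri s hs s' hs' h1 h2 hss
  · rw [norm_sub_rev]
    exact tri s' hs' s hs h2 h1 (by rw [abs_sub_comm]; exact hss)
  · linarith [high s hs s' hs' h1 h2 hss]

lemma eqc_Phi (A : Amb H) (G : Geo H) (D : Blk H) (hG : G.OK) (hD : D.OK A G)
    {F : ℝ → Pt → Pt → (H →L[ℂ] H) → (H →L[ℂ] H)} (hF : IsE A G F) (ε : ℝ) (hε : 0 < ε) :
    ∃ δ : ℝ, 0 < δ ∧ ∀ t ∈ Icc (0 : ℝ) 1, ∀ t' ∈ Icc (0 : ℝ) 1,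
    |t - t'| < δ → ∀ u ∈ XX (G.next A D).d, ∀ v ∈ XX (G.next A D).d, ∀ g ∈ GM A,
      ‖Phi A G D F t u v g - Phi A G D F t' u v g‖ ≤ ε := by
  obtain ⟨δ, hδ, h⟩ := hF.eqc (ε / 2) (by linarith)
  obtain ⟨C, hC0, hC⟩ := isE_bdd hF
  refine ⟨δ / 2, by linarith, fun s hs s' hs' hss w hw w' hw' g hg => ?_⟩
  rw [Phi_eq, Phi_eq]
  refine norm_bs_sub_le A (fun m => blk_norm hI A G D hG hD hC0 hC hs hw hw' hg m)
    (fun m => blk_norm hI A G D hG hD hC0 hC hs' hw hw' hg m) fun m => ?_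
  unfold blk
  split_ifs
  · have := Aop_sub hI A G D hG hD (m / 2) hF (by linarith) h hs hs' hss hw hw' hg
    linarith
  · rw [sub_self, norm_zero]
    exact hε.le

/-! ### evenness -/

omit hI in
lemma F_Y1 (A : Amb H) (G : Geo H) (D : Blk H) (hD : D.OK A G) (m j : ℕ)
    {F : ℝ → Pt → Pt → (H →L[ℂ] H) → (H →L[ℂ] H)} (hF : IsE A G F) {t : ℝ}
    (ht : t ∈ Icc (0 : ℝ) 1) {w v : Pt} (hw : w ∈ XX (G.next A D).d) (hv : v ∈ XX G.d)
    {g : H →L[ℂ] H} (hg : g ∈ GM A) :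
    F t (Y1 D m (flp j w)) v g = F t (Y1 D m w) v g := by
  rcases Y1_flp D m j w with h | ⟨k, h⟩
  · rw [h]
  · rw [h]
    exact hF.ev1 t ht _ (Y1_mem hD m hw) v hv g hg k

omit hI in
lemma F_Y1' (A : Amb H) (G : Geo H) (D : Blk H) (hD : D.OK A G) (m j : ℕ)
    {F : ℝ → Pt → Pt → (H →L[ℂ] H) → (H →L[ℂ] H)} (hF : IsE A G F) {t : ℝ}
    (ht : t ∈ Icc (0 : ℝ) 1) {w u : Pt} (hw : w ∈ XX (G.next A D).d) (hu : u ∈ XX G.d)
    {g : H →L[ℂ] H} (hg : g ∈ GM A) :
    F t u (Y1 D m (flp j w)) g = F t u (Y1 D m w) g := by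
  rcases Y1_flp D m j w with h | ⟨k, h⟩
  · rw [h]
  · rw [h]
    exact hF.ev2 t ht u hu _ (Y1_mem hD m hw) g hg k

omit hI in
lemma F_Y2' (A : Amb H) (G : Geo H) (D : Blk H) (hD : D.OK A G) (m j : ℕ)
    {F : ℝ → Pt → Pt → (H →L[ℂ] H) → (H →L[ℂ] H)} (hF : IsE A G F) {t : ℝ}
    (ht : t ∈ Icc (0 : ℝ) 1) {w u : Pt} (hw : w ∈ XX (G.next A D).d) (hu : u ∈ XX G.d)
    {g : H →L[ℂ] H} (hg : g ∈ GM A) :
    F t u (Y2 D m (flp j w)) g = F t u (Y2 D m w) g := by
  rcases Y2_flp D m j w with h | ⟨k, h⟩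
  · rw [h]
  · rw [h]
    exact hF.ev2 t ht u hu _ (Y2_mem hD m hw) g hg k

lemma flp_mem (A : Amb H) (G : Geo H) (D : Blk H) {w : Pt} (hw : w ∈ XX (G.next A D).d)
    (j : ℕ) : flp j w ∈ XX (G.next A D).d := hI.flp _ w hw j

lemma blkt_flp (A : Amb H) (G : Geo H) (D : Blk H) (hD : D.OK A G) (m j : ℕ)
    {F : ℝ → Pt → Pt → (H →L[ℂ] H) → (H →L[ℂ] H)} (hF : IsE A G F) {τ : ℝ}
    (hτ : τ ∈ Icc (0 : ℝ) 1) {w : Pt} (hw : w ∈ XX (G.next A D).d) :
    blkt A G D m F τ (flp j w) = blkt A G D m F τ w := by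
  have hw2 := flp_mem hI A G D hw j
  have e1 : F τ (Y1 D m (flp j w)) (Y2 D m (flp j w)) (D.g m) =
      F τ (Y1 D m w) (Y2 D m w) (D.g m) := by
    rw [F_Y1 A G D hD m j hF hτ hw (Y2_mem hD m hw2) (hD.g_mem m),
      F_Y2' A G D hD m j hF hτ hw (Y1_mem hD m hw) (hD.g_mem m)]
  unfold blkt
  rw [e1]
  rcases hh_flp hI A G D m j hw with h | h
  · rw [h]
  · rw [h, star_neg]
    noncomm_ring

lemma Aop_flp (A : Amb H) (G : Geo H) (D : Blk H) (hD : D.OK A G) (i j : ℕ)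
    {F : ℝ → Pt → Pt → (H →L[ℂ] H) → (H →L[ℂ] H)} (hF : IsE A G F) {s : ℝ}
    (hs : s ∈ Icc (0 : ℝ) 1) {w w' : Pt} (hw : w ∈ XX (G.next A D).d)
    (hw' : w' ∈ XX (G.next A D).d) {g : H →L[ℂ] H} (hg : g ∈ GM A) :
    Aop A G D i F s (flp j w) w' g = Aop A G D i F s w w' g := by
  have hw2 := flp_mem hI A G D hw j
  unfold Aop
  split_ifs with h
  · exact F_Y1 A G D hD _ j hF (two_mem hs h) hw (Y1_mem hD _ hw')
      (Submonoid.mul_mem _ hg (hh_mem hI A G D i hw'))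
  · have h0 : (0 : ℝ) ∈ Icc (0 : ℝ) 1 := ⟨le_rfl, zero_le_one⟩
    rw [F_Y1 A G D hD _ j hF h0 hw (Y1_mem hD _ hw2) (Submonoid.one_mem _),
      F_Y1' A G D hD _ j hF h0 hw (Y1_mem hD _ hw) (Submonoid.one_mem _)]

lemma Aop_flp' (A : Amb H) (G : Geo H) (D : Blk H) (hD : D.OK A G) (i j : ℕ)
    {F : ℝ → Pt → Pt → (H →L[ℂ] H) → (H →L[ℂ] H)} (hF : IsE A G F) {s : ℝ}
    (hs : s ∈ Icc (0 : ℝ) 1) {w w' : Pt} (hw : w ∈ XX (G.next A D).d)
    (hw' : w' ∈ XX (G.next A D).d) {g : H →L[ℂ] H} (hg : g ∈ GM A) :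
    Aop A G D i F s w (flp j w') g = Aop A G D i F s w w' g := by
  have hw2 := flp_mem hI A G D hw' j
  unfold Aop
  split_ifs with h
  · rw [F_Y1' A G D hD i j hF (two_mem hs h) hw' (Y1_mem hD _ hw)
      (Submonoid.mul_mem _ hg (hh_mem hI A G D i hw2))]
    rcases hh_flp hI A G D i j hw' with h1 | h1
    · rw [h1]
    · rw [h1, mul_neg]
      exact hF.ev3 _ (two_mem hs h) _ (Y1_mem hD _ hw) _ (Y1_mem hD _ hw') _
        (Submonoid.mul_mem _ hg (hh_mem hI A G D i hw'))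
  · rw [blkt_flp hI A G D hD i j hF (tau_mem hs (not_le.1 h).le (hD.t_mem i)) hw']

lemma Aop_neg (A : Amb H) (G : Geo H) (D : Blk H) (hD : D.OK A G) (i : ℕ)
    {F : ℝ → Pt → Pt → (H →L[ℂ] H) → (H →L[ℂ] H)} (hF : IsE A G F) {s : ℝ}
    (hs : s ∈ Icc (0 : ℝ) 1) {w w' : Pt} (hw : w ∈ XX (G.next A D).d)
    (hw' : w' ∈ XX (G.next A D).d) {g : H →L[ℂ] H} (hg : g ∈ GM A) :
    Aop A G D i F s w w' (-g) = Aop A G D i F s w w' g := by
  unfold Aop
  split_ifs with h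
  · rw [neg_mul]
    exact hF.ev3 _ (two_mem hs h) _ (Y1_mem hD _ hw) _ (Y1_mem hD _ hw') _
      (Submonoid.mul_mem _ hg (hh_mem hI A G D i hw'))
  · rw [star_neg]
    congr 1
    noncomm_ring

/-! ### boundary conditions -/

/-- at the time zero all blocks are given by the same formula -/
lemma blk_zero (A : Amb H) (G : Geo H) (D : Blk H) (hD : D.OK A G)
    {F : ℝ → Pt → Pt → (H →L[ℂ] H) → (H →L[ℂ] H)} (hF : IsE A G F) {w w' : Pt}
    (hw : w ∈ XX (G.next A D).d) (hw' : w' ∈ XX (G.next A D).d) {g : H →L[ℂ] H} (hg : g ∈ GM A)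
    (m : ℕ) : blk A G D F 0 w w' g m = blkt A G D m F (D.t m) w := by
  unfold blk
  split_ifs with hm
  · have h2 : 2 * (m / 2) = m := Nat.two_mul_div_two_of_even hm
    obtain ⟨-, ht, hg1⟩ := hD.even m hm
    rw [Aop_of_le A G D (m / 2) F (by norm_num), mul_zero, h2,
      hF.bd0 _ (Y1_mem hD m hw) _ (Y1_mem hD _ hw') _
        (Submonoid.mul_mem _ hg (hh_mem hI A G D (m / 2) hw'))]
    unfold blkt
    rw [ht, hg1, hF.bd0 _ (Y1_mem hD m hw) _ (Y2_mem hD m hw) _ (Submonoid.one_mem _)]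
    unfold hh
    rw [if_pos hm, one_mul, star_one, mul_one]
  · rfl

lemma Phi_zero (A : Amb H) (G : Geo H) (D : Blk H) (hD : D.OK A G)
    {F : ℝ → Pt → Pt → (H →L[ℂ] H) → (H →L[ℂ] H)} (hF : IsE A G F) {w w' : Pt}
    (hw : w ∈ XX (G.next A D).d) (hw' : w' ∈ XX (G.next A D).d) {g : H →L[ℂ] H} (hg : g ∈ GM A) :
    Phi A G D F 0 w w' g = bs A fun m => blkt A G D m F (D.t m) w := by
  rw [Phi_eq]
  congr 1
  funext m
  exact blk_zero hI A G D hD hF hw hw' hg m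

lemma Phi_bd1 (A : Amb H) (G : Geo H) (D : Blk H) (hG : G.OK) (hD : D.OK A G)
    {F : ℝ → Pt → Pt → (H →L[ℂ] H) → (H →L[ℂ] H)} (hF : IsE A G F) {w w' : Pt}
    (hw : w ∈ XX (G.next A D).d) (hw' : w' ∈ XX (G.next A D).d) {g : H →L[ℂ] H} (hg : g ∈ GM A) :
    Phi A G D F 1 w w' g =
      (G.next A D).S1 * Phi A G D F 0 w w 1 * star (G.next A D).S1 +
        (G.next A D).S2 * g * Phi A G D F 0 w' w' 1 * star g * star (G.next A D).S2 := by
  obtain ⟨C, hC0, hC⟩ := isE_bdd hF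
  have h1mem : (1 : ℝ) ∈ Icc (0 : ℝ) 1 := ⟨zero_le_one, le_rfl⟩
  have rowL := fun m => bs_row A (fun m => blk_norm hI A G D hG hD hC0 hC h1mem hw hw' hg m) m
  have row : ∀ {x : Pt}, x ∈ XX (G.next A D).d → ∀ m, star (A.R m) *
      bs A (fun m => blkt A G D m F (D.t m) x) = blkt A G D m F (D.t m) x * star (A.R m) :=
    fun hx m => bs_row A (fun m => blkt_norm hI A G D hD m hC (hD.t_mem m) hx) m
  rw [Phi_zero hI A G D hD hF hw hw (Submonoid.one_mem _),
    Phi_zero hI A G D hD hF hw' hw' (Submonoid.one_mem _), Phi_eq]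
  obtain ⟨-, -, -, hRg, hRg'⟩ := hI.gm A g hg
  have hRsg : ∀ m, star (A.R m) * star g = star g * star (A.R m) := fun m => by
    rw [← star_mul, ← star_mul, hRg]
  refine ext_R A fun m => ?_
  rw [rowL, mul_add]
  rcases Nat.even_or_odd m with hm | hm
  · obtain ⟨j, hj⟩ := hm
    have hm2 : m = 2 * j := by omega
    subst hm2
    have s1 : star (A.R (2 * j)) * star (G.next A D).S1 = star G.S1 * star (A.R (2 * j)) := by
      rw [← star_mul, next_S1_mul_R_even, star_mul]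
    have s2 : star (A.R j) * star (G.next A D).S2 = star G.S2 * star (A.R (2 * j)) := by
      rw [← star_mul, next_S2_mul_R, star_mul]
    have t1 : star (A.R (2 * j)) * ((G.next A D).S1 *
        bs A (fun m => blkt A G D m F (D.t m) w) * star (G.next A D).S1) =
        G.S1 * blkt A G D (2 * j) F (D.t (2 * j)) w * star G.S1 * star (A.R (2 * j)) := by
      calc _ = (star (A.R (2 * j)) * (G.next A D).S1) *
            bs A (fun m => blkt A G D m F (D.t m) w) * star (G.next A D).S1 := by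
            simp only [mul_assoc]
        _ = G.S1 * (star (A.R (2 * j)) * bs A (fun m => blkt A G D m F (D.t m) w)) *
            star (G.next A D).S1 := by rw [next_S1_row_even]; simp only [mul_assoc]
        _ = G.S1 * blkt A G D (2 * j) F (D.t (2 * j)) w *
            (star (A.R (2 * j)) * star (G.next A D).S1) := by
            rw [row hw]; simp only [mul_assoc]
        _ = _ := by rw [s1]; simp only [mul_assoc]
    have t2 : star (A.R (2 * j)) * ((G.next A D).S2 * g *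
        bs A (fun m => blkt A G D m F (D.t m) w') * star g * star (G.next A D).S2) =
        G.S2 * g * blkt A G D j F (D.t j) w' * star g * star G.S2 * star (A.R (2 * j)) := by
      calc _ = (star (A.R (2 * j)) * (G.next A D).S2) * g *
            bs A (fun m => blkt A G D m F (D.t m) w') * star g * star (G.next A D).S2 := by
            simp only [mul_assoc]
        _ = G.S2 * (star (A.R j) * g) * bs A (fun m => blkt A G D m F (D.t m) w') * star g *
            star (G.next A D).S2 := by rw [next_S2_row_even]; simp only [mul_assoc]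
        _ = G.S2 * g * (star (A.R j) * bs A (fun m => blkt A G D m F (D.t m) w')) * star g *
            star (G.next A D).S2 := by rw [hRg']; simp only [mul_assoc]
        _ = G.S2 * g * blkt A G D j F (D.t j) w' * (star (A.R j) * star g) *
            star (G.next A D).S2 := by rw [row hw']; simp only [mul_assoc]
        _ = G.S2 * g * blkt A G D j F (D.t j) w' * star g *
            (star (A.R j) * star (G.next A D).S2) := by rw [hRsg]; simp only [mul_assoc]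
        _ = _ := by rw [s2]; simp only [mul_assoc]
    have e0 : blkt A G D (2 * j) F (D.t (2 * j)) w = F 0 (Y1 D (2 * j) w) (Y1 D (2 * j) w) 1 := by
      have h1 := blk_zero hI A G D hD hF hw hw (Submonoid.one_mem _) (2 * j)
      have h2 : blk A G D F 0 w w 1 (2 * j) = F 0 (Y1 D (2 * j) w) (Y1 D (2 * j) w) 1 := by
        unfold blk
        rw [if_pos ⟨j, by ring⟩, show 2 * j / 2 = j by omega,
          Aop_of_le A G D j F (by norm_num), mul_zero]
        exact hF.bd0 _ (Y1_mem hD _ hw) _ (Y1_mem hD _ hw) _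
          (Submonoid.mul_mem _ (Submonoid.one_mem _) (hh_mem hI A G D j hw))
      rw [← h1, h2]
    have e1 : blk A G D F 1 w w' g (2 * j) = A2 A G D j F 1 w w' g := by
      unfold blk
      rw [if_pos ⟨j, by ring⟩, show 2 * j / 2 = j by omega]
      exact Aop_of_ge hI A G D hD j hF hw hw' hg (by norm_num)
    rw [t1, t2, e0, e1, A2, show ((2 : ℝ) * 1 - 1) * D.t j = D.t j by ring, add_mul]
  · have s1 : star (A.R m) * star (G.next A D).S1 = star (A.R m) := by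
      rw [← star_mul, next_S1_mul_R_odd A G D hm]
    have t1 : star (A.R m) * ((G.next A D).S1 *
        bs A (fun m => blkt A G D m F (D.t m) w) * star (G.next A D).S1) =
        blkt A G D m F (D.t m) w * star (A.R m) := by
      calc _ = (star (A.R m) * (G.next A D).S1) *
            bs A (fun m => blkt A G D m F (D.t m) w) * star (G.next A D).S1 := by
            simp only [mul_assoc]
        _ = (star (A.R m) * bs A (fun m => blkt A G D m F (D.t m) w)) *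
            star (G.next A D).S1 := by rw [next_S1_row_odd A G D hm]
        _ = blkt A G D m F (D.t m) w * (star (A.R m) * star (G.next A D).S1) := by
            rw [row hw]; simp only [mul_assoc]
        _ = _ := by rw [s1]
    have t2 : star (A.R m) * ((G.next A D).S2 * g *
        bs A (fun m => blkt A G D m F (D.t m) w') * star g * star (G.next A D).S2) = 0 := by
      calc _ = (star (A.R m) * (G.next A D).S2) * g *
            bs A (fun m => blkt A G D m F (D.t m) w') * star g * star (G.next A D).S2 := by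
            simp only [mul_assoc]
        _ = 0 := by rw [next_S2_row_odd A G D hm]; simp only [zero_mul]
    rw [t1, t2, add_zero]
    congr 1
    unfold blk
    rw [if_neg (Nat.not_even_iff_odd.2 hm)]

theorem isE_Phi (A : Amb H) (G : Geo H) (D : Blk H) (hG : G.OK) (hD : D.OK A G)
    {F : ℝ → Pt → Pt → (H →L[ℂ] H) → (H →L[ℂ] H)} (hF : IsE A G F) :
    IsE A (G.next A D) (Phi A G D F) where
  sc := SC_Phi hI A G D hG hD hF
  eqc := eqc_Phi hI A G D hG hD hF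
  ev1 := by
    intro s hs w hw w' hw' g hg k
    rw [Phi_eq, Phi_eq]
    congr 1
    funext m
    unfold blk
    split_ifs
    · exact Aop_flp hI A G D hD _ k hF hs hw hw' hg
    · exact blkt_flp hI A G D hD _ k hF (hD.t_mem m) hw
  ev2 := by
    intro s hs w hw w' hw' g hg k
    rw [Phi_eq, Phi_eq]
    congr 1
    funext m
    unfold blk
    split_ifs
    · exact Aop_flp' hI A G D hD _ k hF hs hw hw' hg
    · rfl
  ev3 := by
    intro s hs w hw w' hw' g hg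
    rw [Phi_eq, Phi_eq]
    congr 1
    funext m
    unfold blk
    split_ifs
    · exact Aop_neg hI A G D hD _ hF hs hw hw' hg
    · rfl
  bd0 := by
    intro w hw w' hw' g hg
    rw [Phi_zero hI A G D hD hF hw hw' hg, Phi_zero hI A G D hD hF hw hw (Submonoid.one_mem _)]
  bd1 := by
    intro w hw w' hw' g hg
    exact Phi_bd1 hI A G D hG hD hF hw hw' hg

end

end Pool.Agent.Y929.EL
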